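import Mathlib

/-!
# EGF: exponent vectors, squarefree in the first `r` variables; definitions
-/

set_option autoImplicit false

namespace Pool.EGF

/-- The exponent vectors of degree `d` in `n` variables, squarefree in the first `r` variables. -/
def T (n r d : ℕ) : Finset (Fin n → ℕ) :=
  (Fintype.piFinset fun _ : Fin n => Finset.range (d + 1)).filter
    fun s => (∀ i : Fin n, i.val < r → s i ≤ 1) ∧ ∑ i, s i = d

/-- `W` is an initial (largest elements first) segment of `T n r d` for the lexicographic order. -/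
def Seg (n r d : ℕ) (W : Finset (Fin n → ℕ)) : Prop :=
  W ⊆ T n r d ∧ ∀ s ∈ W, ∀ t ∈ T n r d, toLex s ≤ toLex t → t ∈ W

open Classical in
/-- The upper shadow: the products with the variables which are squarefree in the first `r`
variables. -/
noncomputable def nab (n r d : ℕ) (W : Finset (Fin n → ℕ)) : Finset (Fin n → ℕ) :=
  (T n r (d + 1)).filter fun v => ∃ j : Fin n, ∃ w ∈ W, v = w + Pi.single j 1

/-- `A` is a family of segments closed under multiplication. -/
def Fam (n r : ℕ) (A : ℕ → Finset (Fin n → ℕ)) : Prop :=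
  (∀ d, Seg n r d (A d)) ∧ ∀ d, nab n r d (A d) ⊆ A (d + 1)

/-- The number of squarefree variables after removal of the variable `i`. -/
def rr (r i : ℕ) : ℕ := if i < r then r - 1 else r

/-- `W` is compressed in the direction of the variable `i`. -/
def Cmp (n r d : ℕ) (i : Fin (n + 1)) (W : Finset (Fin (n + 1) → ℕ)) : Prop :=
  ∀ (e : ℕ) (u v : Fin n → ℕ), Fin.insertNth (α := fun _ => ℕ) i e u ∈ W →
    Fin.insertNth (α := fun _ => ℕ) i e v ∈ T (n + 1) r d → toLex u ≤ toLex v →
    Fin.insertNth (α := fun _ => ℕ) i e v ∈ W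

/-- `W` is stable: a variable may be replaced by an earlier one. -/
def Stab (n r d : ℕ) (W : Finset (Fin n → ℕ)) : Prop :=
  ∀ w ∈ W, ∀ j m : Fin n, j < m → 1 ≤ w m → w + Pi.single j 1 - Pi.single m 1 ∈ T n r d →
    w + Pi.single j 1 - Pi.single m 1 ∈ W

/-- The condition that `w` involves no variable after `j` (nor `j` itself if it is squarefree). -/
def Low (n r : ℕ) (j : Fin n) (w : Fin n → ℕ) : Prop :=
  ∀ q : Fin n, (j < q ∨ (j = q ∧ j.val < r)) → w q = 0

/-- The size of the upper shadow of the segment of size `k` in `T n n d`. -/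
def sh : ℕ → ℕ → ℕ → ℕ
  | 0, _, _ => 0
  | n + 1, 0, k => if k = 0 then 0 else n + 1
  | n + 1, d + 1, k =>
      if k ≤ n.choose d then sh n d k else n.choose (d + 1) + sh n (d + 1) (k - n.choose d)

/-- Clements–Lindström in `n` variables. -/
def CLn (n : ℕ) : Prop :=
  ∀ (r d : ℕ) (W L : Finset (Fin n → ℕ)), W ⊆ T n r d → Seg n r d L → L.card ≤ W.card →
    (nab n r d L).card ≤ (nab n r d W).card

end Pool.EGF
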