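import Pool.Agent.H20.EGF.Defs
import Pool.Agent.H45.EGH.S3

/-!
# EGF: statements of the modules
-/

set_option autoImplicit false

namespace Pool.EGF

open MvPolynomial Pool.EGH

/-! ## Combinatorics -/

/-- TBA: basic facts about `T`. -/
def TBAStmt : Prop :=
  (∀ (n r d : ℕ) (s : Fin n → ℕ),
    s ∈ T n r d ↔ (∀ i : Fin n, i.val < r → s i ≤ 1) ∧ ∑ i, s i = d) ∧
  (∀ n d : ℕ, (T n n d).card = n.choose d) ∧
  ∀ n r d : ℕ, r ≤ n →
    (T (n + 1) r d).card = ∑ j ∈ Finset.range (d + 1), (T n r (d - j)).card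

/-- INS: insertion of a variable. -/
def INSStmt : Prop :=
  ∀ (n r d : ℕ) (i : Fin (n + 1)) (e : ℕ) (u : Fin n → ℕ),
    (Fin.insertNth (α := fun _ => ℕ) i e u ∈ T (n + 1) r d ↔
      e ≤ d ∧ (i.val < r → e ≤ 1) ∧ u ∈ T n (rr r i.val) (d - e)) ∧
    ∀ v : Fin n → ℕ, (toLex (Fin.insertNth (α := fun _ => ℕ) i e u) ≤
      toLex (Fin.insertNth (α := fun _ => ℕ) i e v) ↔ toLex u ≤ toLex v)

/-- LVA: division by the last variable. -/
def LVAStmt : Prop :=
  ∀ (n d : ℕ) (u v : Fin n → ℕ) (j : Fin n), ∑ i, u i = d → ∑ i, v i = d + 1 →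
    toLex (u + Pi.single j 1) ≤ toLex v →
    ∃ m : Fin n, 1 ≤ v m ∧ toLex u ≤ toLex (v - Pi.single m 1)

/-- NSG: the upper shadow of a segment is a segment. -/
def NSGStmt : Prop :=
  ∀ (n r d : ℕ) (W : Finset (Fin n → ℕ)), Seg n r d W → Seg n r (d + 1) (nab n r d W)

/-- EXS: existence and comparison of segments. -/
def EXSStmt : Prop :=
  (∀ n r d k : ℕ, k ≤ (T n r d).card → ∃ L, Seg n r d L ∧ L.card = k) ∧
  (∀ (n r d : ℕ) (L L' : Finset (Fin n → ℕ)), Seg n r d L → Seg n r d L' →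
    L.card ≤ L'.card → L ⊆ L') ∧
  ∀ (n r d : ℕ) (W W' : Finset (Fin n → ℕ)), W ⊆ W' → nab n r d W ⊆ nab n r d W'

/-- CMP: one compression. -/
def CMPStmt : Prop :=
  ∀ n : ℕ, CLn n → ∀ (r d : ℕ) (i : Fin (n + 1)) (W : Finset (Fin (n + 1) → ℕ)),
    W ⊆ T (n + 1) r d →
    ∃ W' : Finset (Fin (n + 1) → ℕ), W' ⊆ T (n + 1) r d ∧ W'.card = W.card ∧
      (nab (n + 1) r d W').card ≤ (nab (n + 1) r d W).card ∧
      (Cmp n r d i W ∨
        ∀ ρ : (Fin (n + 1) → ℕ) → ℕ,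
          (∀ s ∈ T (n + 1) r d, ∀ t ∈ T (n + 1) r d, toLex s < toLex t → ρ s < ρ t) →
          ∑ w ∈ W, ρ w < ∑ w ∈ W', ρ w)

/-- EXT: all compressions. -/
def EXTStmt : Prop :=
  ∀ n : ℕ, CLn n → ∀ (r d : ℕ) (W : Finset (Fin (n + 1) → ℕ)), W ⊆ T (n + 1) r d →
    ∃ W' : Finset (Fin (n + 1) → ℕ), W' ⊆ T (n + 1) r d ∧ W'.card = W.card ∧
      (nab (n + 1) r d W').card ≤ (nab (n + 1) r d W).card ∧ ∀ i, Cmp n r d i W'

/-- STB: compressed sets are stable (at least three variables). -/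
def STBStmt : Prop :=
  ∀ (n r d : ℕ) (W : Finset (Fin (n + 1) → ℕ)), 2 ≤ n → W ⊆ T (n + 1) r d →
    (∀ i, Cmp n r d i W) → Stab (n + 1) r d W

/-- STL: segments are stable. -/
def STLStmt : Prop :=
  ∀ (n r d : ℕ) (W : Finset (Fin n → ℕ)), Seg n r d W → Stab n r d W

open Classical in
/-- CNT: the size of the upper shadow of a stable set. -/
def CNTStmt : Prop :=
  ∀ (n r d : ℕ) (W : Finset (Fin n → ℕ)), W ⊆ T n r d → Stab n r d W →
    (nab n r d W).card = ∑ j : Fin n, (W.filter (Low n r j)).card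

/-- KEY: comparison with the segment. -/
def KEYStmt : Prop :=
  ∀ (n r d : ℕ) (W L : Finset (Fin (n + 1) → ℕ)), W ⊆ T (n + 1) r d → Stab (n + 1) r d W →
    Cmp n r d (Fin.last n) W → Seg (n + 1) r d L → L.card ≤ W.card →
    ∀ w ∈ L, w (Fin.last n) = 0 → w ∈ W

/-- S12: at most two variables. -/
def S12Stmt : Prop := CLn 0 ∧ CLn 1 ∧ CLn 2

/-- CLA: Clements–Lindström. -/
def CLAStmt : Prop := ∀ n : ℕ, CLn n

/-- FAM: families of segments with given sizes. -/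
def FAMStmt : Prop :=
  ∀ (n r : ℕ) (D : ℕ → ℕ), (∀ d, D d ≤ (T n r d).card) →
    (∀ (d : ℕ) (L : Finset (Fin n → ℕ)), Seg n r d L → L.card = D d →
      (nab n r d L).card ≤ D (d + 1)) →
    ∃ A : ℕ → Finset (Fin n → ℕ), Fam n r A ∧ ∀ d, (A d).card = D d

/-- LEX: lexification of a closed family. -/
def LEXStmt : Prop :=
  ∀ (n r : ℕ) (B : ℕ → Finset (Fin n → ℕ)), (∀ d, B d ⊆ T n r d) →
    (∀ d, nab n r d (B d) ⊆ B (d + 1)) →
    ∃ A : ℕ → Finset (Fin n → ℕ), Fam n r A ∧ ∀ d, (A d).card = (B d).card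

/-- SLI: slices. -/
def SLIStmt : Prop :=
  ∀ (n r : ℕ) (A : ℕ → ℕ → Finset (Fin n → ℕ)), r ≤ n → (∀ j, Fam n r (A j)) →
    (∀ j d, (A j d).card ≤ (A (j + 1) d).card) →
    ∃ B : ℕ → Finset (Fin (n + 1) → ℕ), (∀ d, B d ⊆ T (n + 1) r d) ∧
      (∀ d, nab (n + 1) r d (B d) ⊆ B (d + 1)) ∧
      ∀ d, (B d).card = ∑ j ∈ Finset.range (d + 1), (A j (d - j)).card

/-- SHR: the upper shadow of a segment of squarefree monomials. -/
def SHRStmt : Prop :=
  ∀ (n d : ℕ) (L : Finset (Fin n → ℕ)), Seg n n d L → (nab n n d L).card = sh n d L.card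

/-- NUM: the finite check. -/
def NUMStmt : Prop :=
  ∀ n d h : ℕ, n ≤ 6 → 1 ≤ d → h ≤ n.choose d →
    sh n d (n.choose d - h) + bd d h ≤ n.choose (d + 1)

/-- BAS: the squarefree families given by the growth bounds. -/
def BASStmt : Prop :=
  ∀ (n : ℕ) (h : ℕ → ℕ), n ≤ 6 → (h 0 = 0 → ∀ i, h i = 0) → (∀ i, h i ≤ n.choose i) →
    (∀ i, 1 ≤ i → h (i + 1) ≤ bd i (h i)) →
    ∃ A : ℕ → Finset (Fin n → ℕ), Fam n n A ∧ ∀ i, (A i).card + h i = n.choose i

/-! ## Algebra -/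

/-- KER: elimination of a linear form. -/
def KERStmt : Prop :=
  ∀ (K : Type) [Field K] (N : ℕ) (l : PR K (N + 1)), l ∈ fm K (N + 1) 1 → l ≠ 0 →
    ∃ φ : PR K (N + 1) →ₐ[K] PR K N, Function.Surjective φ ∧
      (∀ i, ∀ f ∈ fm K (N + 1) i, φ f ∈ fm K N i) ∧ RingHom.ker φ = Ideal.span {l}

/-- TRF: elimination of the linear form of a mixed complete intersection. -/
def TRFStmt : Prop :=
  ∀ (K : Type) [Field K] (N r : ℕ) (P : Ideal (PR K (N + 1))), MCI 1 r P →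
    ∃ φ : PR K (N + 1) →ₐ[K] PR K N, Function.Surjective φ ∧
      (∀ i, ∀ f ∈ fm K (N + 1) i, φ f ∈ fm K N i) ∧ RingHom.ker φ ≤ P ∧ MCI 0 r (P.map φ)

/-- HFT: Hilbert functions under graded surjections. -/
def HFTStmt : Prop :=
  ∀ (K : Type) [Field K] (N M : ℕ) (φ : PR K N →ₐ[K] PR K M), Function.Surjective φ →
    (∀ i, ∀ f ∈ fm K N i, φ f ∈ fm K M i) → ∀ I : Ideal (PR K N), Hg I → RingHom.ker φ ≤ I →
    Hg (I.map φ) ∧ ∀ i, hf (I.map φ) i = hf I i

/-- SUM: the Hilbert function by powers of a linear form. -/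
def SUMStmt : Prop :=
  ∀ (K : Type) [Field K] (N : ℕ) (I : Ideal (PR K N)) (l : PR K N), Hg I → l ∈ fm K N 1 →
    ∀ d, hf I d = ∑ j ∈ Finset.range (d + 1), hf (clI I (l ^ j) ⊔ Ideal.span {l}) (d - j)

/-- ZER: the unit ideal. -/
def ZERStmt : Prop :=
  ∀ (K : Type) [Field K] (N : ℕ) (I : Ideal (PR K N)), hf I 0 = 0 → ∀ i, hf I i = 0

/-- The assertion for `n` variables and `r` quadrics. -/
def EGn (K : Type) [Field K] (n r : ℕ) : Prop :=
  ∀ J I : Ideal (PR K n), MCI 0 r J → Hg I → J ≤ I →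
    ∃ A : ℕ → Finset (Fin n → ℕ), Fam n r A ∧ ∀ d, (A d).card + hf I d = (T n r d).card

/-- STE: the step of the induction. -/
def STEStmt : Prop :=
  ∀ (K : Type) [Field K] [Infinite K] (n r : ℕ), r ≤ n → EGn K n r → EGn K (n + 1) r

/-- ST0: the beginning of the induction. -/
def ST0Stmt : Prop :=
  ∀ (K : Type) [Field K] [IsAlgClosed K] (r : ℕ), r ≤ 6 → EGn K r r

/-- OUT: the lex ideal of a family. -/
def OUTStmt : Prop :=
  ∀ (K : Type) [Field K] (n r : ℕ) (hr : r ≤ n) (A : ℕ → Finset (Fin n → ℕ)), Fam n r A →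
    ∃ J : Ideal (MvPolynomial (Fin n) K),
      (∀ p ∈ J, ∀ s ∈ p.support, MvPolynomial.monomial s (1 : K) ∈ J) ∧
      (∀ s t : Fin n →₀ ℕ, s.degree = t.degree →
          MvPolynomial.monomial s (1 : K) ∈ J →
          (MonomialOrder.lex : MonomialOrder (Fin n)).toSyn s ≤
            (MonomialOrder.lex : MonomialOrder (Fin n)).toSyn t →
          MvPolynomial.monomial t (1 : K) ∈ J) ∧
      ∀ d : ℕ,
        Module.finrank K
          ↥(MvPolynomial.homogeneousSubmodule (Fin n) K d ⊓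
              Submodule.restrictScalars K
                (Ideal.span (Set.range fun i : Fin r =>
                  (MvPolynomial.X (Fin.castLE hr i) : MvPolynomial (Fin n) K) ^ 2) ⊔ J)) +
          (T n r d).card = Module.finrank K ↥(fm K n d) + (A d).card

/-- MAIN: every homogeneous ideal which contains a regular sequence of at most six quadrics has
the Hilbert function of a lex-plus-powers ideal. -/
def MainStmt : Prop :=
  ∀ (K : Type) [Field K] (n r : ℕ) (hr : r ≤ n) (I : Ideal (MvPolynomial (Fin n) K))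
    (f : Fin r → MvPolynomial (Fin n) K), r ≤ 6 →
    (∀ p ∈ I, ∀ d : ℕ, MvPolynomial.homogeneousComponent d p ∈ I) →
    (∀ i, (f i).IsHomogeneous 2) → (∀ i, f i ∈ I) →
    RingTheory.Sequence.IsRegular (MvPolynomial (Fin n) K) (List.ofFn f) →
    ∃ J : Ideal (MvPolynomial (Fin n) K),
      (∀ p ∈ J, ∀ s ∈ p.support, MvPolynomial.monomial s (1 : K) ∈ J) ∧
      (∀ s t : Fin n →₀ ℕ, s.degree = t.degree →
          MvPolynomial.monomial s (1 : K) ∈ J →
          (MonomialOrder.lex : MonomialOrder (Fin n)).toSyn s ≤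
            (MonomialOrder.lex : MonomialOrder (Fin n)).toSyn t →
          MvPolynomial.monomial t (1 : K) ∈ J) ∧
      ∀ d : ℕ,
        Module.finrank K
          ↥(MvPolynomial.homogeneousSubmodule (Fin n) K d ⊓ Submodule.restrictScalars K I) =
        Module.finrank K
          ↥(MvPolynomial.homogeneousSubmodule (Fin n) K d ⊓
              Submodule.restrictScalars K
                (Ideal.span (Set.range fun i : Fin r =>
                  (MvPolynomial.X (Fin.castLE hr i) : MvPolynomial (Fin n) K) ^ 2) ⊔ J))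

end Pool.EGF
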